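import Mathlib
import Pool.Agent.U68.TU.Stm

set_option autoImplicit false

/-!
# Project TU, package GEN: class number one and units of all signatures in `ℚ(√2, √5)`
-/

namespace Pool.Agent.U56.TU

open NumberField Pool.Agent.U68.TU Module

variable {K : Type} [Field K] [NumberField K]

/-- the element with given coordinates -/
noncomputable def mk (B : BQ K) (v : Fin 4 → ℤ) : 𝓞 K :=
  (v 0 : 𝓞 K) + v 1 * B.f + v 2 * B.s + v 3 * (B.s * B.f)

theorem co_mk (B : BQ K) (v : Fin 4 → ℤ) : B.co (mk B v) = v := by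
  rw [mk, ← B.hco v]; simp

theorem mk_co (B : BQ K) (x : 𝓞 K) : mk B (B.co x) = x := by
  rw [mk, ← B.hco]; simp

theorem co_eq (B : BQ K) (x : 𝓞 K) (a b c d : ℤ)
    (h : x = (a : 𝓞 K) + b * B.f + c * B.s + d * (B.s * B.f)) : B.co x = ![a, b, c, d] := by
  rw [← co_mk B ![a, b, c, d], mk, h]; simp

/-- the integral basis -/
noncomputable def bas (B : BQ K) : Basis (Fin 4) ℤ (𝓞 K) :=
  Basis.ofEquivFun B.co.toIntLinearEquiv

theorem bas_repr (B : BQ K) (x : 𝓞 K) (i : Fin 4) : (bas B).repr x i = B.co x i := by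
  rw [bas, Basis.ofEquivFun_repr_apply]; rfl

theorem bas_apply (B : BQ K) (i : Fin 4) : (bas B) i = ![1, B.f, B.s, B.s * B.f] i := by
  have h : (bas B) i = B.co.symm (Pi.single i 1) := by
    rw [bas, Basis.coe_ofEquivFun]; rfl
  rw [h, B.hco]
  fin_cases i <;> simp

theorem trace_eq (B : BQ K) (a b c d : ℤ) :
    Algebra.trace ℤ (𝓞 K) ((a : 𝓞 K) + b * B.f + c * B.s + d * (B.s * B.f)) = 4 * a + 2 * b := by
  have hs := B.hs
  have hf := B.hf
  rw [Algebra.trace_eq_matrix_trace (bas B), Matrix.trace]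
  simp only [Matrix.diag, Algebra.leftMulMatrix_eq_repr_mul, bas_repr, bas_apply]
  rw [Fin.sum_univ_four]
  simp only [Matrix.cons_val_zero, Matrix.cons_val_one, Matrix.cons_val]
  rw [co_eq B _ a b c d (by ring),
    co_eq B (((a : 𝓞 K) + b * B.f + c * B.s + d * (B.s * B.f)) * B.f) b (a + b) d (c + d)
      (by push_cast; linear_combination ((b : 𝓞 K) + d * B.s) * hf),
    co_eq B (((a : 𝓞 K) + b * B.f + c * B.s + d * (B.s * B.f)) * B.s) (2 * c) (2 * d) a b
      (by push_cast; linear_combination ((c : 𝓞 K) + d * B.f) * hs),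
    co_eq B (((a : 𝓞 K) + b * B.f + c * B.s + d * (B.s * B.f)) * (B.s * B.f)) (2 * d) (2 * c + 2 * d)
      b (a + b)
      (by push_cast; linear_combination ((b : 𝓞 K) * B.s + 2 * d) * hf +
            ((c : 𝓞 K) * B.f + d * B.f ^ 2) * hs)]
  simp
  ring

theorem discr_eq (B : BQ K) : discr K = 1600 := by
  have hs := B.hs
  have hf := B.hf
  rw [← NumberField.discr_eq_discr K (bas B), Algebra.discr_def]
  have hM : Algebra.traceMatrix ℤ (bas B) = !![4, 2, 0, 0; 2, 6, 0, 0; 0, 0, 8, 4; 0, 0, 4, 12] := by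
    ext i j
    rw [Algebra.traceMatrix_apply, Algebra.traceForm_apply, bas_apply, bas_apply]
    have key : ∀ (x : 𝓞 K) (a b c d m : ℤ), x = (a : 𝓞 K) + b * B.f + c * B.s + d * (B.s * B.f) →
        4 * a + 2 * b = m → Algebra.trace ℤ (𝓞 K) x = m := by
      intro x a b c d m hx hm
      rw [hx, trace_eq, hm]
    fin_cases i <;> fin_cases j
    · exact key _ 1 0 0 0 _ (by simp) (by simp)
    · exact key _ 0 1 0 0 _ (by simp) (by simp)
    · exact key _ 0 0 1 0 _ (by simp) (by simp)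
    · exact key _ 0 0 0 1 _ (by simp) (by simp)
    · exact key _ 0 1 0 0 _ (by simp) (by simp)
    · exact key _ 1 1 0 0 _ (by simp; linear_combination hf) (by simp)
    · exact key _ 0 0 0 1 _ (by simp; ring) (by simp)
    · exact key _ 0 0 1 1 _ (by simp; linear_combination B.s * hf) (by simp)
    · exact key _ 0 0 1 0 _ (by simp) (by simp)
    · exact key _ 0 0 0 1 _ (by simp) (by simp)
    · exact key _ 2 0 0 0 _ (by simp; linear_combination hs) (by simp)
    · exact key _ 0 2 0 0 _ (by simp; linear_combination B.f * hs) (by simp)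
    · exact key _ 0 0 0 1 _ (by simp) (by simp)
    · exact key _ 0 0 1 1 _ (by simp; linear_combination B.s * hf) (by simp)
    · exact key _ 0 2 0 0 _ (by simp; linear_combination B.f * hs) (by simp)
    · exact key _ 2 2 0 0 _ (by simp; linear_combination B.f ^ 2 * hs + 2 * hf) (by simp)
  rw [hM]
  simp [Matrix.det_succ_row_zero, Fin.sum_univ_succ, Fin.succAbove]

theorem finrank_eq (B : BQ K) : finrank ℚ K = 4 := by
  rw [← RingOfIntegers.rank K, Module.finrank_eq_card_basis (bas B)]; simp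

theorem ext_hom {R : Type} [Field R] [CharZero R] (B : BQ K) (φ ψ : K →+* R)
    (h1 : φ (B.s : K) = ψ (B.s : K)) (h2 : φ (B.f : K) = ψ (B.f : K)) (x : 𝓞 K) : φ (x : K) = ψ (x : K) := by
  rw [← mk_co B x, mk]
  simp [h1, h2]

theorem totallyReal (B : BQ K) : IsTotallyReal K := by
  refine ⟨fun v => ?_⟩
  rw [InfinitePlace.isReal_iff, ComplexEmbedding.isReal_iff]
  set φ := v.embedding with hφ
  have real_of_sq : ∀ (z : ℂ) (r : ℝ), 0 ≤ r → z ^ 2 = r → (starRingEnd ℂ) z = z := by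
    intro z r hr hz
    have h1 : (z - (Real.sqrt r : ℂ)) * (z + (Real.sqrt r : ℂ)) = 0 := by
      have h2 : ((Real.sqrt r : ℝ) : ℂ) ^ 2 = (r : ℂ) := by
        rw [← Complex.ofReal_pow, Real.sq_sqrt hr]
      linear_combination hz - h2
    rcases mul_eq_zero.1 h1 with h | h
    · rw [sub_eq_zero.1 h, Complex.conj_ofReal]
    · rw [eq_neg_of_add_eq_zero_left h, map_neg, Complex.conj_ofReal]
  have hs : φ (B.s : K) ^ 2 = ((2 : ℝ) : ℂ) := by
    rw [← map_pow]
    have : ((B.s : K)) ^ 2 = 2 := by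
      have := congrArg (algebraMap (𝓞 K) K) B.hs
      rw [map_pow, map_ofNat] at this
      exact this
    rw [this, map_ofNat]; simp
  have hf : (2 * φ (B.f : K) - 1) ^ 2 = ((5 : ℝ) : ℂ) := by
    have : ((B.f : K)) ^ 2 = B.f + 1 := by
      have := congrArg (algebraMap (𝓞 K) K) B.hf
      simpa using this
    have h2 := congrArg φ this
    simp only [map_pow, map_add, map_one] at h2
    push_cast
    linear_combination 4 * h2
  have cs := real_of_sq _ 2 (by norm_num) hs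
  have cf := real_of_sq _ 5 (by norm_num) hf
  have hO : ∀ x : 𝓞 K, ComplexEmbedding.conjugate φ (x : K) = φ (x : K) := by
    intro x
    apply ext_hom B
    · rw [ComplexEmbedding.conjugate_coe_eq]; exact cs
    · rw [ComplexEmbedding.conjugate_coe_eq]
      simp only [map_sub, map_mul, map_ofNat, map_one] at cf
      linear_combination cf / 2
  ext x
  obtain ⟨a, b, hb, rfl⟩ := IsFractionRing.div_surjective (A := 𝓞 K) x
  rw [map_div₀, map_div₀]
  have h1 := hO a
  have h2 := hO b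
  rw [h1, h2]

theorem no_two (B : BQ K) (I : Ideal (𝓞 K)) : Ideal.absNorm I ≠ 2 := by
  intro h
  rw [Ideal.absNorm_apply, Submodule.cardQuot_apply] at h
  have : Finite (𝓞 K ⧸ I) := Nat.finite_of_card_ne_zero (by rw [h]; norm_num)
  have := Fintype.ofFinite (𝓞 K ⧸ I)
  rw [Nat.card_eq_fintype_card] at h
  let e : ZMod 2 ≃+* (𝓞 K ⧸ I) := ZMod.ringEquivOfPrime _ Nat.prime_two h
  let g : 𝓞 K →+* ZMod 2 := e.symm.toRingHom.comp (Ideal.Quotient.mk I)
  have hg : (g B.f) ^ 2 = g B.f + 1 := by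
    rw [← map_pow, B.hf]; simp
  revert hg
  generalize g B.f = y
  revert y
  decide

theorem no_three (B : BQ K) (I : Ideal (𝓞 K)) : Ideal.absNorm I ≠ 3 := by
  intro h
  rw [Ideal.absNorm_apply, Submodule.cardQuot_apply] at h
  have : Finite (𝓞 K ⧸ I) := Nat.finite_of_card_ne_zero (by rw [h]; norm_num)
  have := Fintype.ofFinite (𝓞 K ⧸ I)
  rw [Nat.card_eq_fintype_card] at h
  let e : ZMod 3 ≃+* (𝓞 K ⧸ I) := ZMod.ringEquivOfPrime _ Nat.prime_three h
  let g : 𝓞 K →+* ZMod 3 := e.symm.toRingHom.comp (Ideal.Quotient.mk I)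
  have hg : (g B.s) ^ 2 = 2 := by
    rw [← map_pow, B.hs, map_ofNat]
  revert hg
  generalize g B.s = y
  revert y
  decide

theorem pid (B : BQ K) : IsPrincipalIdealRing (𝓞 K) := by
  have hR := totallyReal B
  apply RingOfIntegers.isPrincipalIdealRing_of_isPrincipal_of_norm_le
  intro I hI
  rw [hR.nrComplexPlaces_eq_zero, finrank_eq B, discr_eq B] at hI
  have h40 : Real.sqrt |((1600 : ℤ) : ℝ)| = 40 := by
    rw [show |((1600 : ℤ) : ℝ)| = 40 ^ 2 by norm_num]
    exact Real.sqrt_sq (by norm_num)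
  have hle : (Ideal.absNorm (I : Ideal (𝓞 K)) : ℝ) < 4 := by
    refine lt_of_le_of_lt hI ?_
    push_cast at h40 ⊢
    rw [h40]
    norm_num [Nat.factorial]
  have hlt : Ideal.absNorm (I : Ideal (𝓞 K)) < 4 := by exact_mod_cast hle
  have h0 : Ideal.absNorm (I : Ideal (𝓞 K)) ≠ 0 := Ideal.absNorm_ne_zero_of_nonZeroDivisors I
  have h2 := no_two B (I : Ideal (𝓞 K))
  have h3 := no_three B (I : Ideal (𝓞 K))
  have h1 : Ideal.absNorm (I : Ideal (𝓞 K)) = 1 := by omega
  rw [Ideal.absNorm_eq_one_iff] at h1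
  rw [h1]
  exact top_isPrincipal

/-- the values of real embeddings -/
theorem vals (B : BQ K) (φ : K →+* ℝ) :
    (φ (B.s : K) = Real.sqrt 2 ∨ φ (B.s : K) = -Real.sqrt 2) ∧
    (φ (B.f : K) = (1 + Real.sqrt 5) / 2 ∨ φ (B.f : K) = (1 - Real.sqrt 5) / 2) := by
  have h2 : Real.sqrt 2 ^ 2 = 2 := Real.sq_sqrt (by norm_num)
  have h5 : Real.sqrt 5 ^ 2 = 5 := Real.sq_sqrt (by norm_num)
  have hs : φ (B.s : K) ^ 2 = 2 := by
    have := congrArg (algebraMap (𝓞 K) K) B.hs
    rw [map_pow, map_ofNat] at this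
    have h := congrArg φ this
    rwa [map_pow, map_ofNat] at h
  have hf : φ (B.f : K) ^ 2 = φ (B.f : K) + 1 := by
    have := congrArg (algebraMap (𝓞 K) K) B.hf
    rw [map_pow, map_add, map_one] at this
    have h := congrArg φ this
    rwa [map_pow, map_add, map_one] at h
  constructor
  · have h : (φ (B.s : K) - Real.sqrt 2) * (φ (B.s : K) + Real.sqrt 2) = 0 := by
      linear_combination hs - h2
    rcases mul_eq_zero.1 h with h | h
    · exact Or.inl (sub_eq_zero.1 h)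
    · exact Or.inr (eq_neg_of_add_eq_zero_left h)
  · have h : (φ (B.f : K) - (1 + Real.sqrt 5) / 2) * (φ (B.f : K) - (1 - Real.sqrt 5) / 2) = 0 := by
      linear_combination hf - h5 / 4
    rcases mul_eq_zero.1 h with h | h
    · exact Or.inl (sub_eq_zero.1 h)
    · exact Or.inr (sub_eq_zero.1 h)

theorem units (B : BQ K) : IsUnit (1 + B.s) ∧ IsUnit B.f ∧ IsUnit (B.f + B.s) := by
  have hs := B.hs
  have hf := B.hf
  refine ⟨IsUnit.of_mul_eq_one (B.s - 1) ?_, IsUnit.of_mul_eq_one (B.f - 1) ?_,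
    IsUnit.of_mul_eq_one ((B.f - B.s) * B.f) ?_⟩
  · linear_combination hs
  · linear_combination hf
  · linear_combination (B.f + 1) * hf - B.f * hs

theorem t_GEN : S_GEN := by
  intro K _ _ B I hI
  have hpid := pid B
  obtain ⟨g0, hg0⟩ := (IsPrincipalIdealRing.principal I).principal
  have hg0' : I = Ideal.span {g0} := hg0
  have hne : g0 ≠ 0 := by
    rintro rfl
    apply hI
    rw [hg0']; simp
  obtain ⟨u1, u2, u3⟩ := units B
  have h2 : Real.sqrt 2 ^ 2 = 2 := Real.sq_sqrt (by norm_num)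
  have h5 : Real.sqrt 5 ^ 2 = 5 := Real.sq_sqrt (by norm_num)
  have b2 : 1.41 < Real.sqrt 2 := by
    rw [Real.lt_sqrt (by norm_num)]; norm_num
  have b2' : Real.sqrt 2 < 1.42 := by
    rw [Real.sqrt_lt' (by norm_num)]; norm_num
  have b5 : 2.23 < Real.sqrt 5 := by
    rw [Real.lt_sqrt (by norm_num)]; norm_num
  have b5' : Real.sqrt 5 < 2.24 := by
    rw [Real.sqrt_lt' (by norm_num)]; norm_num
  obtain ⟨p1, p1s, p1f⟩ := B.emb (Real.sqrt 2) ((1 + Real.sqrt 5) / 2) h2 (by nlinarith)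
  obtain ⟨p2, p2s, p2f⟩ := B.emb (Real.sqrt 2) ((1 - Real.sqrt 5) / 2) h2 (by nlinarith)
  obtain ⟨p3, p3s, p3f⟩ := B.emb (-Real.sqrt 2) ((1 + Real.sqrt 5) / 2) (by rw [neg_sq, h2]) (by nlinarith)
  obtain ⟨p4, p4s, p4f⟩ := B.emb (-Real.sqrt 2) ((1 - Real.sqrt 5) / 2) (by rw [neg_sq, h2]) (by nlinarith)
  have tp : ∀ x : 𝓞 K, 0 < p1 (x : K) → 0 < p2 (x : K) → 0 < p3 (x : K) → 0 < p4 (x : K) → TP (x : K) := by
    intro x h1 h2 h3 h4 φ
    obtain ⟨hs | hs, hf | hf⟩ := vals B φ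
    · rw [ext_hom B φ p1 (by rw [hs, p1s]) (by rw [hf, p1f])]; exact h1
    · rw [ext_hom B φ p2 (by rw [hs, p2s]) (by rw [hf, p2f])]; exact h2
    · rw [ext_hom B φ p3 (by rw [hs, p3s]) (by rw [hf, p3f])]; exact h3
    · rw [ext_hom B φ p4 (by rw [hs, p4s]) (by rw [hf, p4f])]; exact h4
  -- one step
  have nz : ∀ (p : K →+* ℝ) (x : 𝓞 K), x ≠ 0 → p (x : K) ≠ 0 := by
    intro p x hx h
    apply hx
    have : (x : K) = 0 := (map_eq_zero p).1 h
    exact_mod_cast this
  have e1 : ∃ g : 𝓞 K, I = Ideal.span {g} ∧ g ≠ 0 ∧ 0 < p1 (g : K) := by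
    rcases lt_or_gt_of_ne (nz p1 g0 hne) with h | h
    · refine ⟨-g0, ?_, neg_ne_zero.2 hne, ?_⟩
      · rw [hg0', Ideal.span_singleton_neg]
      · push_cast; rw [map_neg]; linarith
    · exact ⟨g0, hg0', hne, h⟩
  have step : ∀ (u : 𝓞 K), IsUnit u → ∀ g : 𝓞 K, I = Ideal.span {g} → g ≠ 0 →
      I = Ideal.span {u * g} ∧ u * g ≠ 0 := by
    intro u hu g hg hg0
    refine ⟨?_, mul_ne_zero hu.ne_zero hg0⟩
    rw [hg, Ideal.span_singleton_mul_left_unit hu]
  obtain ⟨g1, hg1, hg1n, h11⟩ := e1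
  have e2 : ∃ g : 𝓞 K, I = Ideal.span {g} ∧ g ≠ 0 ∧ 0 < p1 (g : K) ∧ 0 < p2 (g : K) := by
    rcases lt_or_gt_of_ne (nz p2 g1 hg1n) with h | h
    · obtain ⟨h1, h2⟩ := step (B.f * (B.f + B.s)) (u2.mul u3) g1 hg1 hg1n
      refine ⟨_, h1, h2, ?_, ?_⟩
      · push_cast; rw [map_mul, map_mul, map_add, p1s, p1f]
        exact mul_pos (mul_pos (by linarith) (by linarith)) h11
      · push_cast; rw [map_mul, map_mul, map_add, p2s, p2f]
        exact mul_pos_of_neg_of_neg (mul_neg_of_neg_of_pos (by linarith) (by linarith)) h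
    · exact ⟨g1, hg1, hg1n, h11, h⟩
  obtain ⟨g2, hg2, hg2n, h21, h22⟩ := e2
  have e3 : ∃ g : 𝓞 K, I = Ideal.span {g} ∧ g ≠ 0 ∧ 0 < p1 (g : K) ∧ 0 < p2 (g : K) ∧ 0 < p3 (g : K) := by
    rcases lt_or_gt_of_ne (nz p3 g2 hg2n) with h | h
    · obtain ⟨h1, h2⟩ := step ((1 + B.s) * (B.f + B.s)) (u1.mul u3) g2 hg2 hg2n
      refine ⟨_, h1, h2, ?_, ?_, ?_⟩
      · push_cast; rw [map_mul, map_mul, map_add, map_add, map_one, p1s, p1f]
        exact mul_pos (mul_pos (by linarith) (by linarith)) h21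
      · push_cast; rw [map_mul, map_mul, map_add, map_add, map_one, p2s, p2f]
        exact mul_pos (mul_pos (by linarith) (by linarith)) h22
      · push_cast; rw [map_mul, map_mul, map_add, map_add, map_one, p3s, p3f]
        exact mul_pos_of_neg_of_neg (mul_neg_of_neg_of_pos (by linarith) (by linarith)) h
    · exact ⟨g2, hg2, hg2n, h21, h22, h⟩
  obtain ⟨g3, hg3, hg3n, h31, h32, h33⟩ := e3
  rcases lt_or_gt_of_ne (nz p4 g3 hg3n) with h | h
  · obtain ⟨h1, h2⟩ := step (B.f + B.s) u3 g3 hg3 hg3n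
    refine ⟨_, tp _ ?_ ?_ ?_ ?_, h1⟩
    · push_cast; rw [map_mul, map_add, p1s, p1f]
      exact mul_pos (by linarith) h31
    · push_cast; rw [map_mul, map_add, p2s, p2f]
      exact mul_pos (by linarith) h32
    · push_cast; rw [map_mul, map_add, p3s, p3f]
      exact mul_pos (by linarith) h33
    · push_cast; rw [map_mul, map_add, p4s, p4f]
      exact mul_pos_of_neg_of_neg (by linarith) h
  · exact ⟨g3, tp _ h31 h32 h33 h, hg3⟩

end Pool.Agent.U56.TU
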